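import Mathlib

set_option autoImplicit false

/-!
The maximal product of a solution of `σ_{n-2} = σ_n` in positive integers.

Notation used below, for a sequence `f : ℕ → ℝ`:
`e1 f m = ∑_{i < m} f i` and `e2 f m = ∑_{i < j < m} f i f j`.
The sequence `V` is `1, 2, 4, 15, 219, ...` indexed from `0`, `P m = V 0 * ... * V (m-1)`,
`U m = P m * e1 (1 / V) m`, so that `V m = 1 + U m` and `e2 (1 / V) m = 1 - 1 / P m`.
-/

open Finset

namespace Pool.Agent.Results.MP_15ce38_nt.MaxProduct

/-! ### Elementary symmetric sums of initial segments -/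

/-- First elementary symmetric sum of `f 0, ..., f (m-1)`. -/
noncomputable def e1 (f : ℕ → ℝ) (m : ℕ) : ℝ := ∑ i ∈ range m, f i

/-- Second elementary symmetric sum of `f 0, ..., f (m-1)`. -/
noncomputable def e2 (f : ℕ → ℝ) (m : ℕ) : ℝ := ∑ j ∈ range m, f j * e1 f j

/-- Shifted sequence. -/
def sh (k : ℕ) (f : ℕ → ℝ) : ℕ → ℝ := fun i => f (k + i)

@[simp] theorem e1_zero (f : ℕ → ℝ) : e1 f 0 = 0 := by simp [e1]
@[simp] theorem e2_zero (f : ℕ → ℝ) : e2 f 0 = 0 := by simp [e2]
theorem e1_succ (f : ℕ → ℝ) (m : ℕ) : e1 f (m + 1) = e1 f m + f m := by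
  simp [e1, sum_range_succ]
theorem e2_succ (f : ℕ → ℝ) (m : ℕ) : e2 f (m + 1) = e2 f m + f m * e1 f m := by
  simp [e2, sum_range_succ]

theorem e1_add (f : ℕ → ℝ) (k r : ℕ) : e1 f (k + r) = e1 f k + e1 (sh k f) r := by
  induction r with
  | zero => simp
  | succ r ih => rw [← add_assoc, e1_succ, ih, e1_succ]; simp only [sh]; ring

theorem e2_add (f : ℕ → ℝ) (k r : ℕ) :
    e2 f (k + r) = e2 f k + e1 f k * e1 (sh k f) r + e2 (sh k f) r := by
  induction r with
  | zero => simp
  | succ r ih => rw [← add_assoc, e2_succ, ih, e2_succ, e1_succ, e1_add]; simp only [sh]; ring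

theorem e1_nonneg (f : ℕ → ℝ) (hf : ∀ i, 0 < f i) (m : ℕ) : 0 ≤ e1 f m :=
  sum_nonneg fun i _ => (hf i).le

theorem e1_pos (f : ℕ → ℝ) (hf : ∀ i, 0 < f i) (m : ℕ) (hm : 0 < m) : 0 < e1 f m :=
  sum_pos (fun i _ => hf i) (by simpa using hm.ne')

theorem e2_nonneg (f : ℕ → ℝ) (hf : ∀ i, 0 < f i) (m : ℕ) : 0 ≤ e2 f m :=
  sum_nonneg fun j _ => mul_nonneg (hf j).le (e1_nonneg f hf j)

theorem e1_mono (f : ℕ → ℝ) (hf : ∀ i, 0 < f i) {m n : ℕ} (h : m ≤ n) : e1 f m ≤ e1 f n := by
  obtain ⟨r, rfl⟩ := Nat.exists_eq_add_of_le h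
  rw [e1_add]
  have := e1_nonneg (sh m f) (fun i => hf _) r
  linarith

theorem e1_congr (f g : ℕ → ℝ) (m : ℕ) (h : ∀ i < m, f i = g i) : e1 f m = e1 g m :=
  sum_congr rfl fun i hi => h i (mem_range.1 hi)

theorem e2_congr (f g : ℕ → ℝ) (m : ℕ) (h : ∀ i < m, f i = g i) : e2 f m = e2 g m :=
  sum_congr rfl fun j hj => by
    have hj' := mem_range.1 hj
    rw [h j hj', e1_congr f g j fun i hi => h i (hi.trans hj')]

/-! ### Weak majorisation in multiplicative form -/

/-- Abel summation: an antitone nonnegative weight against nonnegative partial sums. -/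
theorem abel (g lam : ℕ → ℝ) (m : ℕ) (hg0 : ∀ i, i < m + 1 → 0 ≤ g i)
    (hg : ∀ i, i < m → g (i + 1) ≤ g i)
    (hl : ∀ l, l ≤ m + 1 → 0 ≤ ∑ i ∈ range l, lam i) :
    g m * ∑ i ∈ range (m + 1), lam i ≤ ∑ i ∈ range (m + 1), g i * lam i := by
  induction m with
  | zero => simp
  | succ m ih =>
    have h1 := ih (fun i hi => hg0 i (by omega)) (fun i hi => hg i (by omega))
      (fun l hl' => hl l (by omega))
    rw [sum_range_succ, sum_range_succ (fun i => g i * lam i)]
    have h2 := hg m (by omega)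
    have h3 := hl (m + 1) (by omega)
    nlinarith

theorem double_sum (a lam : ℕ → ℝ) (m : ℕ) :
    ∑ j ∈ range m, ∑ i ∈ range j, a j * a i * (lam i + lam j) =
      ∑ i ∈ range m, a i * (e1 a m - a i) * lam i := by
  induction m with
  | zero => simp
  | succ m ih =>
    rw [sum_range_succ, ih, sum_range_succ]
    have h1 : ∑ i ∈ range m, a i * (e1 a (m + 1) - a i) * lam i =
        ∑ i ∈ range m, a i * (e1 a m - a i) * lam i + a m * ∑ i ∈ range m, a i * lam i := by
      rw [mul_sum, ← sum_add_distrib]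
      refine sum_congr rfl fun i _ => ?_
      rw [e1_succ]; ring
    have h2 : ∑ i ∈ range m, a m * a i * (lam i + lam m) =
        a m * ∑ i ∈ range m, a i * lam i + lam m * a m * e1 a m := by
      rw [e1, mul_sum, mul_sum, ← sum_add_distrib]
      refine sum_congr rfl fun i _ => ?_
      ring
    rw [h1, h2, e1_succ]
    ring

/-- Majorisation inequality for `C e1 + e2`. -/
theorem major (a b : ℕ → ℝ) (ha : ∀ i, 0 < a i) (hb : ∀ i, 0 < b i) (hanti : Antitone a)
    (m : ℕ) (C : ℝ) (hC : 0 ≤ C)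
    (hprod : ∀ l, l ≤ m + 1 → ∏ i ∈ range l, a i ≤ ∏ i ∈ range l, b i) :
    a m * (C + e1 a (m + 1) - a m) *
        (Real.log (∏ i ∈ range (m + 1), b i) - Real.log (∏ i ∈ range (m + 1), a i)) ≤
      (C * e1 b (m + 1) + e2 b (m + 1)) - (C * e1 a (m + 1) + e2 a (m + 1)) := by
  set lam : ℕ → ℝ := fun i => Real.log (b i) - Real.log (a i) with hlam
  have hL : ∀ l, ∑ i ∈ range l, lam i =
      Real.log (∏ i ∈ range l, b i) - Real.log (∏ i ∈ range l, a i) := by
    intro l
    rw [Real.log_prod (fun i _ => (hb i).ne'), Real.log_prod (fun i _ => (ha i).ne'),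
      ← sum_sub_distrib]
  have hLn : ∀ l, l ≤ m + 1 → 0 ≤ ∑ i ∈ range l, lam i := by
    intro l hl
    rw [hL]
    have h1 : 0 < ∏ i ∈ range l, a i := prod_pos fun i _ => ha i
    have := Real.log_le_log h1 (hprod l hl)
    linarith
  have hE : ∀ i, i < m + 1 → a i ≤ e1 a (m + 1) := by
    intro i hi
    exact single_le_sum (f := a) (fun j _ => (ha j).le) (mem_range.2 hi)
  have hE2 : ∀ i, i < m → a i + a (i + 1) ≤ e1 a (m + 1) := by
    intro i hi
    have h1 : e1 a (i + 2) ≤ e1 a (m + 1) := e1_mono a ha (by omega)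
    have h2 : e1 a (i + 2) = e1 a i + a i + a (i + 1) := by rw [e1_succ, e1_succ]
    have h3 := e1_nonneg a ha i
    linarith
  -- pointwise
  have hpt : ∀ s t : ℝ, 0 < s → 0 < t → s * (Real.log t - Real.log s) ≤ t - s := by
    intro s t hs ht
    have h1 := Real.log_le_sub_one_of_pos (div_pos ht hs)
    rw [Real.log_div ht.ne' hs.ne'] at h1
    have h2 : s * (Real.log t - Real.log s) ≤ s * (t / s - 1) :=
      mul_le_mul_of_nonneg_left h1 hs.le
    have h3 : s * (t / s - 1) = t - s := by field_simp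
    linarith
  have h1 : ∑ i ∈ range (m + 1), a i * lam i ≤ e1 b (m + 1) - e1 a (m + 1) := by
    rw [e1, e1, ← sum_sub_distrib]
    exact sum_le_sum fun i _ => hpt _ _ (ha i) (hb i)
  have h2 : ∑ j ∈ range (m + 1), ∑ i ∈ range j, a j * a i * (lam i + lam j) ≤
      e2 b (m + 1) - e2 a (m + 1) := by
    rw [e2, e2, ← sum_sub_distrib]
    refine sum_le_sum fun j _ => ?_
    rw [e1, e1, mul_sum, mul_sum, ← sum_sub_distrib]
    refine sum_le_sum fun i _ => ?_
    have h3 := hpt (a j * a i) (b j * b i) (mul_pos (ha j) (ha i)) (mul_pos (hb j) (hb i))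
    rw [Real.log_mul (hb j).ne' (hb i).ne', Real.log_mul (ha j).ne' (ha i).ne'] at h3
    have : a j * a i * (lam i + lam j) =
        a j * a i * (Real.log (b j) + Real.log (b i) - (Real.log (a j) + Real.log (a i))) := by
      simp only [hlam]; ring
    rw [this]; exact h3
  rw [double_sum] at h2
  have h3 := abel (fun i => a i * (C + e1 a (m + 1) - a i)) lam m
    (fun i hi => mul_nonneg (ha i).le (by have := hE i hi; linarith))
    (fun i hi => by
      have e1' := hE2 i hi
      have e2' := hanti (Nat.le_succ i)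
      simp only [Nat.succ_eq_add_one] at e2'
      nlinarith)
    hLn
  have h4 : ∑ i ∈ range (m + 1), a i * (C + e1 a (m + 1) - a i) * lam i =
      C * ∑ i ∈ range (m + 1), a i * lam i +
        ∑ i ∈ range (m + 1), a i * (e1 a (m + 1) - a i) * lam i := by
    rw [mul_sum, ← sum_add_distrib]
    refine sum_congr rfl fun i _ => ?_
    ring
  rw [h4, hL] at h3
  have h5 := mul_le_mul_of_nonneg_left h1 hC
  linarith

/-- Choice of a starting index `k` from which all partial products of `a` are at most those of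
`b`. -/
theorem tail_choice (a b : ℕ → ℝ) (ha : ∀ i, 0 < a i) (hb : ∀ i, 0 < b i) (m : ℕ)
    (h : ∏ i ∈ range m, a i < ∏ i ∈ range m, b i) :
    ∃ k r, k + (r + 1) = m ∧
      (∀ l, l ≤ r + 1 → ∏ i ∈ range l, sh k a i ≤ ∏ i ∈ range l, sh k b i) ∧
      ∏ i ∈ range (r + 1), sh k a i < ∏ i ∈ range (r + 1), sh k b i := by
  have hA : ∀ l, 0 < ∏ i ∈ range l, a i := fun l => prod_pos fun i _ => ha i
  have hB : ∀ l, 0 < ∏ i ∈ range l, b i := fun l => prod_pos fun i _ => hb i
  obtain ⟨k, hk, hmin⟩ := exists_min_image (range (m + 1))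
    (fun l => (∏ i ∈ range l, b i) / (∏ i ∈ range l, a i)) ⟨0, by simp⟩
  have hk' : k ≤ m := by simpa [Nat.lt_succ_iff] using hk
  have h0 := hmin 0 (by simp)
  simp only [range_zero, prod_empty, div_one] at h0
  rw [div_le_one (hA k)] at h0
  have hkm : k ≠ m := by
    rintro rfl
    exact absurd h (not_lt.2 h0)
  obtain ⟨r, hr⟩ : ∃ r, k + (r + 1) = m := ⟨m - k - 1, by omega⟩
  refine ⟨k, r, hr, ?_, ?_⟩
  · intro l hl
    have h1 := hmin (k + l) (by simp; omega)
    rw [div_le_div_iff₀ (hA k) (hA (k + l)), prod_range_add a k l, prod_range_add b k l] at h1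
    have h2 : (∏ i ∈ range k, b i) * (∏ i ∈ range k, a i) * (∏ i ∈ range l, sh k a i) ≤
        (∏ i ∈ range k, b i) * (∏ i ∈ range k, a i) * (∏ i ∈ range l, sh k b i) := by
      simp only [sh]
      nlinarith
    exact le_of_mul_le_mul_left h2 (mul_pos (hB k) (hA k))
  · rw [← hr, prod_range_add a k (r + 1), prod_range_add b k (r + 1)] at h
    have h2 : (∏ i ∈ range k, a i) * (∏ i ∈ range (r + 1), sh k a i) <
        (∏ i ∈ range k, a i) * (∏ i ∈ range (r + 1), sh k b i) := by
      have h3 : (0 : ℝ) < ∏ i ∈ range (r + 1), b (k + i) := prod_pos fun i _ => hb _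
      have h4 := mul_le_mul_of_nonneg_right h0 h3.le
      simp only [sh]
      linarith
    exact lt_of_mul_lt_mul_left h2 (hA k).le

/-! ### The extremal sequence -/

/-- The pair `(P m, U m)`. -/
def PU : ℕ → ℕ × ℕ
  | 0 => (1, 0)
  | k + 1 => ((PU k).1 * (1 + (PU k).2), (PU k).2 * (1 + (PU k).2) + (PU k).1)

/-- Product of the first `k` terms of the extremal sequence. -/
def P (k : ℕ) : ℕ := (PU k).1

/-- `P k` times the sum of the reciprocals of the first `k` terms. -/
def U (k : ℕ) : ℕ := (PU k).2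

/-- The extremal sequence `1, 2, 4, 15, 219, ...` indexed from `0`. -/
def V (k : ℕ) : ℕ := 1 + U k

theorem P_succ (k : ℕ) : P (k + 1) = P k * V k := rfl
theorem U_succ (k : ℕ) : U (k + 1) = U k * V k + P k := rfl

theorem P_pos (k : ℕ) : 0 < P k := by
  induction k with
  | zero => exact Nat.one_pos
  | succ k ih => rw [P_succ]; exact Nat.mul_pos ih (by simp [V])

theorem V_pos (k : ℕ) : 0 < V k := by simp [V]

/-- Reciprocals of the extremal sequence. -/
noncomputable def b (k : ℕ) : ℝ := 1 / (V k : ℝ)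

theorem b_pos (k : ℕ) : 0 < b k := by
  have := V_pos k
  unfold b; positivity

theorem U_eq (k : ℕ) : (U k : ℝ) = P k * e1 b k := by
  induction k with
  | zero => simp [U, PU]
  | succ k ih =>
    have hV : (V k : ℝ) ≠ 0 := by exact_mod_cast (V_pos k).ne'
    rw [U_succ, P_succ, e1_succ]
    push_cast
    rw [ih]
    unfold b
    field_simp

theorem e1_b (k : ℕ) : e1 b k = U k / P k := by
  have hP : (P k : ℝ) ≠ 0 := by exact_mod_cast (P_pos k).ne'
  rw [U_eq]; field_simp

theorem e2_b (k : ℕ) : e2 b k = 1 - 1 / P k := by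
  induction k with
  | zero => simp [P, PU]
  | succ k ih =>
    have hV : (V k : ℝ) ≠ 0 := by exact_mod_cast (V_pos k).ne'
    have hP : (P k : ℝ) ≠ 0 := by exact_mod_cast (P_pos k).ne'
    have hVU : (V k : ℝ) = 1 + U k := by simp [V]
    rw [e2_succ, ih, e1_b, P_succ]
    push_cast
    unfold b
    field_simp
    rw [hVU]; ring

theorem prod_b (k : ℕ) : ∏ i ∈ range k, b i = 1 / P k := by
  induction k with
  | zero => simp [P, PU]
  | succ k ih =>
    have hV : (V k : ℝ) ≠ 0 := by exact_mod_cast (V_pos k).ne'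
    have hP : (P k : ℝ) ≠ 0 := by exact_mod_cast (P_pos k).ne'
    rw [prod_range_succ, ih, P_succ]
    push_cast
    unfold b
    field_simp

/-! ### Reciprocals of positive integers -/

/-- Reciprocals of the terms of `x`. -/
noncomputable def rc (x : ℕ → ℕ) (i : ℕ) : ℝ := 1 / (x i : ℝ)

theorem rc_pos (x : ℕ → ℕ) (hx : ∀ i, 0 < x i) (i : ℕ) : 0 < rc x i := by
  have := hx i
  unfold rc; positivity

theorem rc_anti (x : ℕ → ℕ) (hx : ∀ i, 0 < x i) (hm : Monotone x) : Antitone (rc x) := by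
  intro i j hij
  unfold rc
  have h1 : (0 : ℝ) < x i := by exact_mod_cast hx i
  exact one_div_le_one_div_of_le h1 (by exact_mod_cast hm hij)

theorem prod_rc (x : ℕ → ℕ) (m : ℕ) :
    ∏ i ∈ range m, rc x i = 1 / ((∏ i ∈ range m, x i : ℕ) : ℝ) := by
  induction m with
  | zero => simp
  | succ m ih =>
    rw [prod_range_succ, ih, prod_range_succ]
    push_cast
    unfold rc
    rw [div_mul_div_comm, one_mul]

theorem integrality (x : ℕ → ℕ) (hx : ∀ i, 0 < x i) (m : ℕ) :
    ∃ W1 W2 : ℤ, ((∏ i ∈ range m, x i : ℕ) : ℝ) * e1 (rc x) m = W1 ∧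
      ((∏ i ∈ range m, x i : ℕ) : ℝ) * e2 (rc x) m = W2 := by
  induction m with
  | zero => exact ⟨0, 0, by simp, by simp⟩
  | succ m ih =>
    obtain ⟨W1, W2, h1, h2⟩ := ih
    have hxm : (x m : ℝ) ≠ 0 := by exact_mod_cast (hx m).ne'
    refine ⟨x m * W1 + (∏ i ∈ range m, x i : ℕ), x m * W2 + W1, ?_, ?_⟩
    · rw [prod_range_succ, e1_succ]
      push_cast at h1 ⊢
      rw [← h1]
      unfold rc
      field_simp
    · rw [prod_range_succ, e2_succ]
      push_cast at h1 h2 ⊢
      rw [← h1, ← h2]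
      unfold rc
      field_simp

/-- If `e2 < 1` then `e2 ≤ 1 - 1 / ∏ x`. -/
theorem e2_le_of_lt (x : ℕ → ℕ) (hx : ∀ i, 0 < x i) (m : ℕ) (h : e2 (rc x) m < 1) :
    e2 (rc x) m ≤ 1 - 1 / ((∏ i ∈ range m, x i : ℕ) : ℝ) := by
  obtain ⟨-, W2, -, h2⟩ := integrality x hx m
  have hX : (0 : ℝ) < ((∏ i ∈ range m, x i : ℕ) : ℝ) := by
    exact_mod_cast prod_pos fun i _ => hx i
  set X : ℕ := ∏ i ∈ range m, x i with hXdef
  have h3 : (W2 : ℝ) < X := by
    rw [← h2]; nlinarith
  have h4 : W2 < (X : ℤ) := by exact_mod_cast h3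
  have h5 : W2 + 1 ≤ (X : ℤ) := h4
  have h6 : (W2 : ℝ) + 1 ≤ X := by exact_mod_cast h5
  rw [← h2] at h6
  have h7 : e2 (rc x) m = ((X : ℝ) * e2 (rc x) m) / X := by field_simp
  rw [h7, le_sub_iff_add_le, ← add_div, div_le_one hX]
  exact h6

/-! ### The sum of the reciprocals is largest for the extremal sequence -/

theorem two_e2_ge (d : ℕ → ℝ) (δ : ℝ) (hd : ∀ i, 0 < d i) (hδ : ∀ i, d i ≤ δ) (r : ℕ) :
    e1 d r * (e1 d r - δ) ≤ 2 * e2 d r := by
  induction r with
  | zero => simp
  | succ r ih =>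
    rw [e1_succ, e2_succ]
    have h1 := hd r
    have h2 := hδ r
    nlinarith [mul_nonneg h1.le (sub_nonneg.2 h2)]

theorem e2_ge (d : ℕ → ℝ) (δ : ℝ) (hd : ∀ i, 0 < d i) (hδ : ∀ i, d i ≤ δ) (r : ℕ) :
    δ * (e1 d r - δ) ≤ e2 d r := by
  induction r with
  | zero => simp; nlinarith [sq_nonneg δ]
  | succ r ih =>
    rw [e1_succ, e2_succ]
    have h1 := hd r
    have h2 := hδ r
    have h3 := e1_nonneg d hd r
    have h4 := e2_nonneg d hd r
    rcases le_total δ (e1 d r) with h | h
    · nlinarith [mul_nonneg h1.le (sub_nonneg.2 h)]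
    · nlinarith [mul_nonneg (sub_nonneg.2 h2) (sub_nonneg.2 h)]

theorem e1_le_card (d : ℕ → ℝ) (δ : ℝ) (hδ : ∀ i, d i ≤ δ) (r : ℕ) : e1 d r ≤ r * δ := by
  induction r with
  | zero => simp
  | succ r ih =>
    rw [e1_succ]; push_cast
    have := hδ r
    linarith

theorem key_ineq (p v E Q : ℝ) (hp : 8 ≤ p) (hv : 3 ≤ v) (hE : (v - 1) * E + p * Q < 1)
    (hQ : 1 / (v + 1) * (E - 1 / (v + 1)) ≤ Q) :
    E ≤ 1 / v + 1 / (v * (v - 1) + 1 + p) := by
  have hv0 : 0 < v := by linarith
  have hv1 : 0 < v + 1 := by linarith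
  have hw : 0 < v * (v - 1) + 1 + p := by nlinarith
  have hid : (v - 1 + p / (v + 1)) * (1 / v + 1 / (v * (v - 1) + 1 + p)) - (1 + p / (v + 1) ^ 2) =
      (p ^ 2 + p * v * (v - 2) - (v + 1) ^ 2) /
        ((v + 1) ^ 2 * v * (v * (v - 1) + 1 + p)) := by
    field_simp
    ring
  have hnum : 0 ≤ p ^ 2 + p * v * (v - 2) - (v + 1) ^ 2 := by
    have h1 : 0 ≤ v * (v - 2) := by nlinarith
    nlinarith [mul_nonneg (sub_nonneg.2 hp) h1]
  have hR : 0 ≤ (v - 1 + p / (v + 1)) * (1 / v + 1 / (v * (v - 1) + 1 + p)) -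
      (1 + p / (v + 1) ^ 2) := by
    rw [hid]; positivity
  have hk : 0 < v - 1 + p / (v + 1) := by
    have : 0 < p / (v + 1) := by positivity
    linarith
  have hlt : (v - 1 + p / (v + 1)) * E < 1 + p / (v + 1) ^ 2 := by
    have h1 : p * (1 / (v + 1) * (E - 1 / (v + 1))) ≤ p * Q :=
      mul_le_mul_of_nonneg_left hQ (by linarith)
    have h2 : p * (1 / (v + 1) * (E - 1 / (v + 1))) = p / (v + 1) * E - p / (v + 1) ^ 2 := by
      field_simp
    linarith
  by_contra hcon
  push Not at hcon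
  have := mul_lt_mul_of_pos_left hcon hk
  linarith

theorem PU_large (j : ℕ) : 8 ≤ P (j + 3) ∧ 14 ≤ U (j + 3) := by
  induction j with
  | zero => decide
  | succ j ih =>
    obtain ⟨h1, h2⟩ := ih
    have hV := V_pos (j + 3)
    constructor
    · show 8 ≤ P (j + 3 + 1)
      rw [P_succ]; nlinarith
    · show 14 ≤ U (j + 3 + 1)
      rw [U_succ]; nlinarith

theorem small_case (y0 y1 : ℕ) (h0 : 5 ≤ y0) (h1 : y0 ≤ y1)
    (h : 3 * (1 / (y0 : ℝ) + 1 / (y1 : ℝ)) + 2 * (1 / (y1 : ℝ) * (1 / (y0 : ℝ))) < 1) :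
    1 / (y0 : ℝ) + 1 / (y1 : ℝ) ≤ 1 / 4 + 1 / 15 := by
  have hy0 : (0 : ℝ) < y0 := by exact_mod_cast (by omega : 0 < y0)
  have hy1 : (0 : ℝ) < y1 := by exact_mod_cast (by omega : 0 < y1)
  have h2 : 3 * ((y0 : ℝ) + y1) + 2 < y0 * y1 := by
    have e : 3 * (1 / (y0 : ℝ) + 1 / (y1 : ℝ)) + 2 * (1 / (y1 : ℝ) * (1 / (y0 : ℝ))) =
        (3 * ((y0 : ℝ) + y1) + 2) / (y0 * y1) := by
      field_simp
      ring
    rw [e, div_lt_one (mul_pos hy0 hy1)] at h
    exact h
  have h3 : 3 * (y0 + y1) + 2 < y0 * y1 := by exact_mod_cast h2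
  have h4 : 60 * (y0 + y1) ≤ 19 * (y0 * y1) := by
    rcases Nat.lt_or_ge y0 7 with h | h
    · interval_cases y0
      · have : 9 ≤ y1 := by omega
        omega
      · have : 7 ≤ y1 := by omega
        omega
    · nlinarith
  have h5 : 60 * ((y0 : ℝ) + y1) ≤ 19 * (y0 * y1) := by exact_mod_cast h4
  have e : 1 / (y0 : ℝ) + 1 / (y1 : ℝ) = ((y0 : ℝ) + y1) / (y0 * y1) := by
    field_simp
    ring
  rw [e, div_le_iff₀ (mul_pos hy0 hy1)]
  linarith

theorem factC (r : ℕ) : ∀ (j : ℕ) (y : ℕ → ℕ), (∀ i, 0 < y i) → Monotone y →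
    (U j : ℝ) * e1 (rc y) r + P j * e2 (rc y) r < 1 → e1 (rc y) r ≤ e1 (sh j b) r := by
  induction r with
  | zero => intro j y _ _ _; simp
  | succ r ih =>
    intro j y hy hmono h
    have hd := rc_pos y hy
    have hE0 : rc y 0 ≤ e1 (rc y) (r + 1) :=
      single_le_sum (f := rc y) (fun i _ => (hd i).le) (by simp)
    have hQ0 := e2_nonneg (rc y) hd (r + 1)
    have hP0 : (0 : ℝ) < P j := by exact_mod_cast P_pos j
    have hy0 : (0 : ℝ) < y 0 := by exact_mod_cast hy 0
    have hU0 : (0 : ℝ) ≤ U j := by positivity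
    have h1 : (U j : ℝ) * rc y 0 < 1 := by
      have := mul_le_mul_of_nonneg_left hE0 hU0
      have := mul_nonneg hP0.le hQ0
      linarith
    have h2 : U j < y 0 := by
      have : (U j : ℝ) < y 0 := by
        unfold rc at h1
        rw [mul_one_div, div_lt_one hy0] at h1
        exact h1
      exact_mod_cast this
    have h3 : V j ≤ y 0 := by unfold V; omega
    rcases h3.eq_or_lt with heq | hlt
    · -- the first terms agree
      have hrc0 : rc y 0 = b j := by unfold rc b; rw [heq]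
      have hshift : rc (fun i => y (1 + i)) = sh 1 (rc y) := rfl
      have e1' : e1 (rc y) (1 + r) = rc y 0 + e1 (sh 1 (rc y)) r := by
        rw [e1_add]; simp [e1]
      have e2' : e2 (rc y) (1 + r) = rc y 0 * e1 (sh 1 (rc y)) r + e2 (sh 1 (rc y)) r := by
        rw [e2_add]; simp [e1, e2]
      rw [add_comm r 1] at h ⊢
      rw [e1', e2'] at h
      have hVj : (0 : ℝ) < V j := by exact_mod_cast V_pos j
      have hVU : (V j : ℝ) = 1 + U j := by simp [V]
      have hbV : b j * V j = 1 := by unfold b; field_simp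
      have key : (U (j + 1) : ℝ) * e1 (rc fun i => y (1 + i)) r +
          P (j + 1) * e2 (rc fun i => y (1 + i)) r < 1 := by
        rw [hshift, U_succ, P_succ]
        push_cast
        have h4 := mul_lt_mul_of_pos_right h hVj
        rw [hrc0] at h4
        have h5 : ((U j : ℝ) * (b j + e1 (sh 1 (rc y)) r) +
            P j * (b j * e1 (sh 1 (rc y)) r + e2 (sh 1 (rc y)) r)) * V j =
            U j * (b j * V j) + ((U j : ℝ) * V j + P j * (b j * V j)) * e1 (sh 1 (rc y)) r +
              P j * V j * e2 (sh 1 (rc y)) r := by ring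
        rw [h5, hbV] at h4
        linarith
      have h6 := ih (j + 1) (fun i => y (1 + i)) (fun i => hy _)
        (fun i i' hii => hmono (by omega)) key
      rw [hshift] at h6
      have h7 : e1 (sh j b) (1 + r) = b j + e1 (sh (j + 1) b) r := by
        rw [e1_add]
        have : sh 1 (sh j b) = sh (j + 1) b := by
          funext i; simp only [sh]; congr 1; ring
        rw [this]; simp [e1, sh]
      rw [e1', h7, hrc0]
      linarith
    · -- the first term is larger than `V j`
      have hbd : ∀ i, rc y i ≤ 1 / ((V j : ℝ) + 1) := by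
        intro i
        unfold rc
        apply one_div_le_one_div_of_le (by positivity)
        have : V j + 1 ≤ y i := le_trans hlt (hmono (Nat.zero_le i))
        exact_mod_cast this
      have hb' : ∀ i, 0 < sh j b i := fun i => b_pos _
      have hmonoE : ∀ s, s ≤ r + 1 → e1 (sh j b) s ≤ e1 (sh j b) (r + 1) :=
        fun s hs => e1_mono _ hb' hs
      have hcard := e1_le_card (rc y) _ hbd (r + 1)
      rcases Nat.eq_zero_or_pos r with hr0 | hr0
      · subst hr0
        have h4 : e1 (sh j b) (0 + 1) = b j := by simp [e1, sh]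
        rw [h4]
        have h5 : 1 / ((V j : ℝ) + 1) ≤ b j := by
          unfold b
          exact one_div_le_one_div_of_le (by exact_mod_cast V_pos j) (by linarith)
        simp at hcard
        simp at h5
        linarith
      · have hq1 := two_e2_ge (rc y) _ hd hbd (r + 1)
        have hq2 := e2_ge (rc y) _ hd hbd (r + 1)
        have hE1 := e1_nonneg (rc y) hd (r + 1)
        rcases Nat.lt_or_ge j 3 with hj | hj
        · interval_cases j
          · -- j = 0
            have hU : U 0 = 0 := rfl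
            have hP : P 0 = 1 := rfl
            have hV : V 0 = 1 := rfl
            rw [hU, hP] at h
            rw [hV] at hcard hq1
            norm_num at h hcard hq1
            have s2 : e1 (sh 0 b) 2 = 1 + 1 / 2 := by
              have hV1 : V 1 = 2 := rfl
              simp [e1, sum_range_succ, sh, b, hV, hV1]
            have s3 : e1 (sh 0 b) 3 = 1 + 1 / 2 + 1 / 4 := by
              have hV1 : V 1 = 2 := rfl
              have hV2 : V 2 = 4 := rfl
              simp [e1, sum_range_succ, sh, b, hV, hV1, hV2]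
            have s4 : e1 (sh 0 b) 4 = 1 + 1 / 2 + 1 / 4 + 1 / 15 := by
              have hV1 : V 1 = 2 := rfl
              have hV2 : V 2 = 4 := rfl
              have hV3 : V 3 = 15 := rfl
              simp [e1, sum_range_succ, sh, b, hV, hV1, hV2, hV3]
            rcases (by omega : r = 1 ∨ r = 2 ∨ 3 ≤ r) with hr | hr | hr
            · subst hr; rw [s2]; norm_num at hcard; linarith
            · subst hr; rw [s3]; norm_num at hcard; linarith
            · have := hmonoE 4 (by omega)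
              rw [s4] at this
              nlinarith
          · -- j = 1
            have hU : U 1 = 1 := rfl
            have hP : P 1 = 1 := rfl
            have hV : V 1 = 2 := rfl
            rw [hU, hP] at h
            rw [hV] at hcard hq1
            norm_num at h hcard hq1
            have s2 : e1 (sh 1 b) 2 = 1 / 2 + 1 / 4 := by
              have hV2 : V 2 = 4 := rfl
              simp [e1, sum_range_succ, sh, b, hV, hV2]
            have s3 : e1 (sh 1 b) 3 = 1 / 2 + 1 / 4 + 1 / 15 := by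
              have hV2 : V 2 = 4 := rfl
              have hV3 : V 3 = 15 := rfl
              simp [e1, sum_range_succ, sh, b, hV, hV2, hV3]
            rcases (by omega : r = 1 ∨ 2 ≤ r) with hr | hr
            · subst hr; rw [s2]; norm_num at hcard; linarith
            · have := hmonoE 3 (by omega)
              rw [s3] at this
              nlinarith
          · -- j = 2
            have hU : U 2 = 3 := rfl
            have hP : P 2 = 2 := rfl
            have hV : V 2 = 4 := rfl
            rw [hU, hP] at h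
            rw [hV] at hq2
            norm_num at h hq2
            have s2 : e1 (sh 2 b) 2 = 1 / 4 + 1 / 15 := by
              have hV3 : V 3 = 15 := rfl
              simp [e1, sum_range_succ, sh, b, hV, hV3]
            have s3 : e1 (sh 2 b) 3 = 1 / 4 + 1 / 15 + 1 / 219 := by
              have hV3 : V 3 = 15 := rfl
              have hV4 : V 4 = 219 := rfl
              simp [e1, sum_range_succ, sh, b, hV, hV3, hV4]
            rcases (by omega : r = 1 ∨ 2 ≤ r) with hr | hr
            · subst hr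
              rw [s2]
              have t1 : e1 (rc y) 2 = rc y 0 + rc y 1 := by simp [e1, sum_range_succ]
              have t2 : e2 (rc y) 2 = rc y 1 * rc y 0 := by simp [e1, e2, sum_range_succ]
              norm_num at h ⊢
              rw [t1, t2] at h
              rw [t1]
              have := small_case (y 0) (y 1) (by rw [hV] at hlt; omega) (hmono (Nat.zero_le 1))
                (by simpa [rc] using h)
              norm_num at this
              simpa [rc] using this
            · have := hmonoE 3 (by omega)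
              rw [s3] at this
              linarith
        · -- j ≥ 3
          obtain ⟨i, rfl⟩ := Nat.exists_eq_add_of_le' hj
          obtain ⟨hp8, hu14⟩ := PU_large i
          have hVU : (V (i + 3) : ℝ) = 1 + U (i + 3) := by simp [V]
          have hp8' : (8 : ℝ) ≤ P (i + 3) := by exact_mod_cast hp8
          have hu14' : (14 : ℝ) ≤ U (i + 3) := by exact_mod_cast hu14
          have h4 := key_ineq (P (i + 3)) (V (i + 3)) (e1 (rc y) (r + 1)) (e2 (rc y) (r + 1))
            hp8' (by linarith) (by rw [hVU]; simpa using h) hq2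
          have h5 : e1 (sh (i + 3) b) 2 = b (i + 3) + b (i + 3 + 1) := by
            simp [e1, sum_range_succ, sh]
          have h6 : b (i + 3 + 1) =
              1 / ((V (i + 3) : ℝ) * ((V (i + 3) : ℝ) - 1) + 1 + P (i + 3)) := by
            have : (V (i + 3 + 1) : ℝ) = (V (i + 3) : ℝ) * ((V (i + 3) : ℝ) - 1) + 1 + P (i + 3) := by
              have hV' : V (i + 3 + 1) = 1 + (U (i + 3) * V (i + 3) + P (i + 3)) := rfl
              rw [hV']; push_cast; rw [hVU]; ring
            unfold b; rw [this]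
          have h7 := hmonoE 2 (by omega)
          rw [h5, h6] at h7
          have h8 : b (i + 3) = 1 / (V (i + 3) : ℝ) := rfl
          rw [h8] at h7
          linarith

/-! ### The main induction -/

theorem sh_anti (k : ℕ) (f : ℕ → ℝ) (hf : Antitone f) : Antitone (sh k f) :=
  fun i j hij => hf (by omega)

theorem G (x : ℕ → ℕ) (hx : ∀ i, 0 < x i) (hm : Monotone x) (m : ℕ) :
    e2 (rc x) m < 1 → ∀ ε : ℝ, 0 ≤ ε → ε * U m ≤ 1 →
      e2 (rc x) m + ε * e1 (rc x) m ≤ e2 b m + ε * e1 b m := by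
  induction m using Nat.strong_induction_on with
  | _ m ih =>
  intro h ε hε hεU
  have hX : 0 < ∏ i ∈ range m, x i := prod_pos fun i _ => hx i
  have hPm : (0 : ℝ) < P m := by exact_mod_cast P_pos m
  rcases le_or_gt (∏ i ∈ range m, x i) (P m) with hle | hgt
  · have h1 := e2_le_of_lt x hx m h
    have h2 : 1 / (P m : ℝ) ≤ 1 / ((∏ i ∈ range m, x i : ℕ) : ℝ) :=
      one_div_le_one_div_of_le (by exact_mod_cast hX) (by exact_mod_cast hle)
    have h3 : e1 (rc x) m ≤ e1 b m := by
      have h4 := factC m 0 x hx hm (by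
        have hU : U 0 = 0 := rfl
        have hP : P 0 = 1 := rfl
        rw [hU, hP]; simpa using h)
      have h5 : sh 0 b = b := by funext i; simp [sh]
      rwa [h5] at h4
    rw [e2_b]
    have h4 := mul_le_mul_of_nonneg_left h3 hε
    linarith
  · have ha := rc_pos x hx
    obtain ⟨k, r, hkr, hpr, -⟩ := tail_choice (rc x) b ha b_pos m (by
      rw [prod_rc, prod_b]
      exact one_div_lt_one_div_of_lt hPm (by exact_mod_cast hgt))
    have ha' : ∀ i, 0 < sh k (rc x) i := fun i => ha _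
    have hb' : ∀ i, 0 < sh k b i := fun i => b_pos _
    have hak := e1_nonneg (rc x) ha k
    have hC : 0 ≤ ε + e1 (rc x) k := by linarith
    have hmaj := major (sh k (rc x)) (sh k b) ha' hb' (sh_anti k _ (rc_anti x hx hm)) r
      (ε + e1 (rc x) k) hC hpr
    have hE1 : sh k (rc x) r ≤ e1 (sh k (rc x)) (r + 1) :=
      single_le_sum (f := sh k (rc x)) (fun i _ => (ha' i).le) (by simp)
    have hlog : 0 ≤ Real.log (∏ i ∈ range (r + 1), sh k b i) -
        Real.log (∏ i ∈ range (r + 1), sh k (rc x) i) := by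
      have := Real.log_le_log (prod_pos fun i _ => ha' i) (hpr (r + 1) le_rfl)
      linarith
    have hnn : 0 ≤ sh k (rc x) r * (ε + e1 (rc x) k + e1 (sh k (rc x)) (r + 1) - sh k (rc x) r) *
        (Real.log (∏ i ∈ range (r + 1), sh k b i) -
          Real.log (∏ i ∈ range (r + 1), sh k (rc x) i)) :=
      mul_nonneg (mul_nonneg (ha' r).le (by linarith)) hlog
    have hmaj' := hnn.trans hmaj
    have hEb := e1_nonneg (sh k b) hb' (r + 1)
    have hQb := e2_nonneg (sh k b) hb' (r + 1)
    have hPk : (0 : ℝ) < P k := by exact_mod_cast P_pos k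
    -- the bound `(ε + E1) * U k ≤ 1`
    have hbnd : (ε + e1 (sh k b) (r + 1)) * U k ≤ 1 := by
      have h1 : e2 b m + ε * e1 b m ≤ 1 := by
        rw [e2_b, e1_b]
        have : ε * (U m / P m) ≤ 1 / P m := by
          rw [← mul_div_assoc]
          exact div_le_div_of_nonneg_right hεU hPm.le
        linarith
      rw [← hkr, e2_add b k (r + 1), e1_add b k (r + 1)] at h1
      have h2 : e2 b k + (ε + e1 (sh k b) (r + 1)) * e1 b k ≤ 1 := by
        have := mul_nonneg hε hEb
        nlinarith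
      rw [e2_b, e1_b] at h2
      have h3 : (ε + e1 (sh k b) (r + 1)) * (U k / P k) ≤ 1 / P k := by linarith
      rw [← mul_div_assoc, div_le_div_iff_of_pos_right hPk] at h3
      exact h3
    have hk1 : e2 (rc x) k < 1 := by
      have h1 : e2 (rc x) k ≤ e2 (rc x) m := by
        rw [← hkr, e2_add]
        have t1 := mul_nonneg hak (e1_nonneg (sh k (rc x)) ha' (r + 1))
        have t2 := e2_nonneg (sh k (rc x)) ha' (r + 1)
        linarith
      linarith
    have hih := ih k (by omega) hk1 (ε + e1 (sh k b) (r + 1)) (by linarith) hbnd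
    rw [← hkr, e2_add (rc x) k (r + 1), e1_add (rc x) k (r + 1), e2_add b k (r + 1),
      e1_add b k (r + 1)]
    nlinarith

theorem main_seq (x : ℕ → ℕ) (hx : ∀ i, 0 < x i) (hm : Monotone x) (N : ℕ) (hN : 1 ≤ N)
    (h : e2 (rc x) (N + 1) = 1) : ∏ i ∈ range (N + 1), x i ≤ P N * U N := by
  by_contra hcon
  push Not at hcon
  have hUN : 0 < U N := by
    obtain ⟨M, rfl⟩ := Nat.exists_eq_add_of_le' hN
    rw [U_succ]
    have := P_pos M
    omega
  have hUN' : (0 : ℝ) < U N := by exact_mod_cast hUN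
  have hPN' : (0 : ℝ) < P N := by exact_mod_cast P_pos N
  set c : ℕ → ℝ := fun i => if i < N then b i else 1 / (U N : ℝ) with hc
  have hcpos : ∀ i, 0 < c i := by
    intro i
    simp only [hc]
    split_ifs
    · exact b_pos i
    · positivity
  have hcb : ∀ i < N, c i = b i := fun i hi => by simp [hc, hi]
  have hcN : c N = 1 / (U N : ℝ) := by simp [hc]
  have he2c : e2 c (N + 1) = 1 := by
    rw [e2_succ, e2_congr c b N hcb, e1_congr c b N hcb, e2_b, e1_b, hcN]
    field_simp
    ring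
  have hprodc : ∏ i ∈ range (N + 1), c i = 1 / ((P N : ℝ) * U N) := by
    rw [prod_range_succ, prod_congr rfl (fun i hi => hcb i (mem_range.1 hi)), prod_b, hcN,
      div_mul_div_comm, one_mul]
  have ha := rc_pos x hx
  obtain ⟨k, r, hkr, hpr, hstrict⟩ := tail_choice (rc x) c ha hcpos (N + 1) (by
    rw [prod_rc, hprodc]
    exact one_div_lt_one_div_of_lt (mul_pos hPN' hUN') (by exact_mod_cast hcon))
  have hkN : k ≤ N := by omega
  have ha' : ∀ i, 0 < sh k (rc x) i := fun i => ha _
  have hc' : ∀ i, 0 < sh k c i := fun i => hcpos _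
  have hak := e1_nonneg (rc x) ha k
  have hmaj := major (sh k (rc x)) (sh k c) ha' hc' (sh_anti k _ (rc_anti x hx hm)) r
    (e1 (rc x) k) hak hpr
  have hlog : 0 < Real.log (∏ i ∈ range (r + 1), sh k c i) -
      Real.log (∏ i ∈ range (r + 1), sh k (rc x) i) := by
    have := Real.log_lt_log (prod_pos fun i _ => ha' i) hstrict
    linarith
  have hsplit : e1 (sh k (rc x)) (r + 1) = e1 (sh k (rc x)) r + sh k (rc x) r := e1_succ _ _
  have hpos : 0 < e1 (rc x) k + e1 (sh k (rc x)) r := by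
    have t1 := e1_nonneg (sh k (rc x)) ha' r
    rcases Nat.eq_zero_or_pos k with hk0 | hk0
    · have : 0 < r := by omega
      have := e1_pos (sh k (rc x)) ha' r this
      linarith
    · have := e1_pos (rc x) ha k hk0
      linarith
  have hnn : 0 < sh k (rc x) r * (e1 (rc x) k + e1 (sh k (rc x)) (r + 1) - sh k (rc x) r) *
      (Real.log (∏ i ∈ range (r + 1), sh k c i) -
        Real.log (∏ i ∈ range (r + 1), sh k (rc x) i)) :=
    mul_pos (mul_pos (ha' r) (by linarith)) hlog
  have hmaj' := hnn.trans_le hmaj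
  have hEc := e1_nonneg (sh k c) hc' (r + 1)
  have hQc := e2_nonneg (sh k c) hc' (r + 1)
  have hPk : (0 : ℝ) < P k := by exact_mod_cast P_pos k
  have hcbk : ∀ i < k, c i = b i := fun i hi => hcb i (by omega)
  rw [← hkr, e2_add, e2_congr c b k hcbk, e1_congr c b k hcbk] at he2c
  have hbnd : e1 (sh k c) (r + 1) * U k ≤ 1 := by
    have h2 : e2 b k + e1 (sh k c) (r + 1) * e1 b k ≤ 1 := by linarith
    rw [e2_b, e1_b] at h2
    have h3 : e1 (sh k c) (r + 1) * (U k / P k) ≤ 1 / P k := by linarith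
    rw [← mul_div_assoc, div_le_div_iff_of_pos_right hPk] at h3
    exact h3
  rw [← hkr, e2_add] at h
  have hk1 : e2 (rc x) k < 1 := by
    have t3 := e2_nonneg (sh k (rc x)) ha' (r + 1)
    have t4 := e1_pos (sh k (rc x)) ha' (r + 1) (by omega)
    rcases Nat.eq_zero_or_pos k with hk0 | hk0
    · subst hk0; simp
    · have t5 := mul_pos (e1_pos (rc x) ha k hk0) t4
      linarith
  have hG := G x hx hm k hk1 (e1 (sh k c) (r + 1)) hEc hbnd
  linarith

/-! ### Translation of the statement -/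

theorem e2_eq (f : ℕ → ℝ) (m : ℕ) :
    2 * e2 f m = (∑ i ∈ range m, f i) ^ 2 - ∑ i ∈ range m, f i ^ 2 := by
  induction m with
  | zero => simp
  | succ m ih =>
    rw [e2_succ, sum_range_succ, sum_range_succ, mul_add, ih, e1]
    ring

theorem sum_pairs {ι : Type*} [DecidableEq ι] (s : Finset ι) (f : ι → ℝ) :
    2 * ∑ t ∈ powersetCard 2 s, ∏ i ∈ t, f i = (∑ i ∈ s, f i) ^ 2 - ∑ i ∈ s, f i ^ 2 := by
  induction s using Finset.induction_on with
  | empty =>
    have : powersetCard 2 (∅ : Finset ι) = ∅ := powersetCard_eq_empty.2 (by simp)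
    simp [this]
  | insert a s ha ih =>
    have hdisj : Disjoint (powersetCard 2 s) ((powersetCard 1 s).image (insert a)) := by
      rw [Finset.disjoint_left]
      intro t ht ht'
      obtain ⟨t', -, rfl⟩ := mem_image.1 ht'
      exact ha ((mem_powersetCard.1 ht).1 (mem_insert_self a t'))
    rw [powersetCard_succ_insert ha, sum_union hdisj, mul_add, ih, sum_insert ha, sum_insert ha,
      sum_image, powersetCard_one, sum_map]
    · have : ∀ i ∈ s, ∏ j ∈ insert a ({i} : Finset ι), f j = f a * f i := by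
        intro i hi
        have : a ∉ ({i} : Finset ι) := by
          simp only [mem_singleton]
          rintro rfl
          exact ha hi
        rw [prod_insert this, prod_singleton]
      simp only [Function.Embedding.coeFn_mk]
      rw [sum_congr rfl this, ← mul_sum]
      ring
    · intro t ht t' ht' htt
      have h1 : a ∉ t := fun h => ha ((mem_powersetCard.1 ht).1 h)
      have h2 : a ∉ t' := fun h => ha ((mem_powersetCard.1 ht').1 h)
      have := congrArg (fun u => u.erase a) htt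
      simpa [erase_insert h1, erase_insert h2] using this

theorem esymm_compl (n : ℕ) (hn : 2 ≤ n) (x : Fin n → ℕ) (hx : ∀ i, 0 < x i)
    (h : ∑ s ∈ powersetCard (n - 2) (univ : Finset (Fin n)), ∏ i ∈ s, x i =
      ∑ s ∈ powersetCard n (univ : Finset (Fin n)), ∏ i ∈ s, x i) :
    ∑ t ∈ powersetCard 2 (univ : Finset (Fin n)), ∏ i ∈ t, (1 / (x i : ℝ)) = 1 := by
  have hX : (0 : ℝ) < ∏ i, (x i : ℝ) := prod_pos fun i _ => by exact_mod_cast hx i
  have h1 : powersetCard n (univ : Finset (Fin n)) = {univ} := by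
    have := powersetCard_self (univ : Finset (Fin n))
    rwa [card_univ, Fintype.card_fin] at this
  rw [h1, sum_singleton] at h
  have h2 : ∑ s ∈ powersetCard (n - 2) (univ : Finset (Fin n)), ∏ i ∈ s, (x i : ℝ) =
      ∏ i, (x i : ℝ) := by exact_mod_cast h
  have h3 : ∑ t ∈ powersetCard 2 (univ : Finset (Fin n)), ∏ i ∈ tᶜ, (x i : ℝ) =
      ∑ s ∈ powersetCard (n - 2) (univ : Finset (Fin n)), ∏ i ∈ s, (x i : ℝ) := by
    refine sum_nbij' (fun t => tᶜ) (fun s => sᶜ) ?_ ?_ ?_ ?_ ?_
    · intro t ht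
      simp only [mem_powersetCard, subset_univ, true_and] at ht ⊢
      rw [card_compl, ht, Fintype.card_fin]
    · intro t ht
      simp only [mem_powersetCard, subset_univ, true_and] at ht ⊢
      rw [card_compl, ht, Fintype.card_fin]
      omega
    · intro t _; simp
    · intro t _; simp
    · intro t _; rfl
  have h4 : ∀ t : Finset (Fin n), ∏ i ∈ tᶜ, (x i : ℝ) =
      (∏ i, (x i : ℝ)) * ∏ i ∈ t, (1 / (x i : ℝ)) := by
    intro t
    rw [← prod_mul_prod_compl t (fun i => (x i : ℝ))]
    have h5 : (∏ i ∈ t, (x i : ℝ)) * ∏ i ∈ t, (1 / (x i : ℝ)) = 1 := by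
      rw [← prod_mul_distrib]
      apply prod_eq_one
      intro i _
      have : (x i : ℝ) ≠ 0 := by exact_mod_cast (hx i).ne'
      field_simp
    calc ∏ i ∈ tᶜ, (x i : ℝ) = 1 * ∏ i ∈ tᶜ, (x i : ℝ) := (one_mul _).symm
      _ = ((∏ i ∈ t, (x i : ℝ)) * ∏ i ∈ t, (1 / (x i : ℝ))) * ∏ i ∈ tᶜ, (x i : ℝ) := by rw [h5]
      _ = _ := by ring
  rw [sum_congr rfl (fun t _ => h4 t), ← mul_sum, h2] at h3
  have h6 : (∏ i, (x i : ℝ)) * ∑ t ∈ powersetCard 2 (univ : Finset (Fin n)),
      ∏ i ∈ t, (1 / (x i : ℝ)) = (∏ i, (x i : ℝ)) * 1 := by rw [h3, mul_one]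
  exact mul_left_cancel₀ hX.ne' h6

theorem main_fin (N : ℕ) (hN : 1 ≤ N) (x : Fin (N + 1) → ℕ) (hx : ∀ i, 0 < x i)
    (h : ∑ s ∈ powersetCard (N + 1 - 2) (univ : Finset (Fin (N + 1))), ∏ i ∈ s, x i =
      ∑ s ∈ powersetCard (N + 1) (univ : Finset (Fin (N + 1))), ∏ i ∈ s, x i) :
    ∏ i, x i ≤ P N * U N := by
  have h0 := esymm_compl (N + 1) (by omega) x hx h
  set y : ℕ → ℕ := fun i => x (Tuple.sort x ⟨min i N, by omega⟩) with hy
  have hmono : Monotone y := by
    intro i j hij
    have := Tuple.monotone_sort x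
    exact this (by
      show (⟨min i N, _⟩ : Fin (N + 1)) ≤ ⟨min j N, _⟩
      rw [Fin.mk_le_mk]; omega)
  have hypos : ∀ i, 0 < y i := fun i => hx _
  have hyi : ∀ i : Fin (N + 1), y i = x (Tuple.sort x i) := by
    intro i
    simp only [hy]
    congr 2
    apply Fin.ext
    simp only
    have := i.2
    omega
  have hsum : ∀ g : ℕ → ℝ, ∑ i ∈ range (N + 1), g (y i) = ∑ i, g (x i) := by
    intro g
    rw [sum_range]
    simp only [hyi]
    exact Equiv.sum_comp (Tuple.sort x) (fun i => g (x i))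
  have hprod : ∏ i ∈ range (N + 1), y i = ∏ i, x i := by
    rw [prod_range]
    simp only [hyi]
    exact Equiv.prod_comp (Tuple.sort x) x
  have he : e2 (rc y) (N + 1) = 1 := by
    have h1 := e2_eq (rc y) (N + 1)
    have h2 := sum_pairs (univ : Finset (Fin (N + 1))) (fun i => 1 / (x i : ℝ))
    have h3 : ∑ i ∈ range (N + 1), rc y i = ∑ i, 1 / (x i : ℝ) := hsum (fun t => 1 / (t : ℝ))
    have h4 : ∑ i ∈ range (N + 1), rc y i ^ 2 = ∑ i, (1 / (x i : ℝ)) ^ 2 :=
      hsum (fun t => (1 / (t : ℝ)) ^ 2)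
    rw [h3, h4, ← h2, h0] at h1
    linarith
  rw [← hprod]
  exact main_seq y hypos hmono N hN he

theorem v_eq (v : ℕ → ℚ) (h1 : v 1 = 1) (h2 : v 2 = 2)
    (hv : ∀ n, 2 ≤ n → v (n + 1) = 1 + (∑ i ∈ Icc 1 n, 1 / v i) /
      (1 - ∑ j ∈ Icc 1 n, ∑ i ∈ Ico 1 j, 1 / (v i * v j))) (k : ℕ) :
    (v (k + 1) : ℝ) = V k := by
  induction k using Nat.strong_induction_on with
  | _ k ih =>
  rcases (by omega : k = 0 ∨ k = 1 ∨ 2 ≤ k) with hk | hk | hk
  · subst hk
    rw [zero_add, h1]; simp [V, U, PU]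
  · subst hk
    rw [show 1 + 1 = 2 from rfl, h2]; simp [V, U, PU]
  · rw [hv k hk]
    push_cast
    have hb : ∀ i < k, 1 / (v (1 + i) : ℝ) = b i := by
      intro i hi
      rw [add_comm, ih i hi]; rfl
    have s1 : ∑ i ∈ Icc 1 k, 1 / (v i : ℝ) = e1 b k := by
      have : Icc 1 k = Ico 1 (k + 1) := by ext i; simp
      rw [this, sum_Ico_eq_sum_range, e1]
      exact sum_congr rfl fun i hi => hb i (mem_range.1 hi)
    have s2 : ∑ j ∈ Icc 1 k, ∑ i ∈ Ico 1 j, 1 / ((v i : ℝ) * v j) = e2 b k := by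
      have : Icc 1 k = Ico 1 (k + 1) := by ext i; simp
      rw [this, sum_Ico_eq_sum_range, e2]
      refine sum_congr rfl fun j hj => ?_
      have hj' := mem_range.1 hj
      rw [sum_Ico_eq_sum_range, Nat.add_sub_cancel_left, e1, mul_sum]
      refine sum_congr rfl fun i hi => ?_
      have hi' := mem_range.1 hi
      rw [← hb i (by omega), ← hb j hj']
      rw [div_mul_div_comm, one_mul, mul_comm]
    have hP : (P k : ℝ) ≠ 0 := by exact_mod_cast (P_pos k).ne'
    rw [s1, s2, e1_b, e2_b]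
    have hVU : (V k : ℝ) = 1 + U k := by simp [V]
    rw [hVU]
    have : (1 : ℝ) - (1 - 1 / P k) = 1 / P k := by ring
    rw [this]
    field_simp

/-- Let `v` be the sequence `1, 2, 4, 15, 219, ...` given by
`v (n+1) = 1 + (∑_{i ≤ n} 1 / v i) / (1 - ∑_{i < j ≤ n} 1 / (v i v j))`.  Every `n`-tuple of positive
integers with `σ_{n-2} = σ_n` has product at most `v 1 * ... * v (n-1) * (v n - 1)`. -/
theorem result (v : ℕ → ℚ) (h1 : v 1 = 1) (h2 : v 2 = 2)
    (hv : ∀ n, 2 ≤ n → v (n + 1) = 1 + (∑ i ∈ Finset.Icc 1 n, 1 / v i) /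
      (1 - ∑ j ∈ Finset.Icc 1 n, ∑ i ∈ Finset.Ico 1 j, 1 / (v i * v j)))
    (n : ℕ) (hn : 2 ≤ n) (x : Fin n → ℕ) (hx : ∀ i, 0 < x i)
    (hsol : ∑ s ∈ Finset.powersetCard (n - 2) (Finset.univ : Finset (Fin n)), ∏ i ∈ s, x i =
      ∑ s ∈ Finset.powersetCard n (Finset.univ : Finset (Fin n)), ∏ i ∈ s, x i) :
    ((∏ i, x i : ℕ) : ℚ) ≤ (∏ i ∈ Finset.Icc 1 (n - 1), v i) * (v n - 1) := by
  obtain ⟨N, rfl⟩ : ∃ N, n = N + 1 := ⟨n - 1, by omega⟩
  have hmain := main_fin N (by omega) x hx hsol
  have hveq := v_eq v h1 h2 hv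
  have hcast : (((∏ i, x i : ℕ) : ℚ) : ℝ) ≤
      (((∏ i ∈ Finset.Icc 1 (N + 1 - 1), v i) * (v (N + 1) - 1) : ℚ) : ℝ) := by
    have hp : (((∏ i ∈ Finset.Icc 1 (N + 1 - 1), v i : ℚ)) : ℝ) = P N := by
      rw [Nat.add_sub_cancel]
      have : Icc 1 N = Ico 1 (N + 1) := by ext i; simp
      rw [this, prod_Ico_eq_prod_range, Nat.add_sub_cancel]
      clear hmain hsol hx x hn this
      induction N with
      | zero => simp [P, PU]
      | succ M ihM =>
        rw [prod_range_succ, P_succ]
        push_cast at ihM ⊢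
        rw [ihM, add_comm 1 M, hveq M]
    rw [Rat.cast_mul, hp, Rat.cast_sub, hveq N, Rat.cast_one]
    have hVU : (V N : ℝ) - 1 = U N := by simp [V]
    rw [hVU]
    exact_mod_cast hmain
  exact_mod_cast hcast

end Pool.Agent.Results.MP_15ce38_nt.MaxProduct
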